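import Mathlib
import Pool.Agent.R256.Usf4

/-!
# MP_af3eb4: upper semi-Fredholm spectra of weighted composition operators on the disc algebra

For the elliptic finite Blaschke product `B(z) = z²` there is a weight `w` in the disc algebra such
that the radii of the circles contained in the upper semi-Fredholm spectrum of
`(Tf)(z) = w(z) f(z²)` accumulate at `1 > 0`.
-/

set_option autoImplicit false

open Filter Topology Metric

namespace Pool.Agent.Results.MP_af3eb4_an.AccumulatingCircles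

/-- Membership in the disc algebra: continuous on the closed unit disc, analytic inside. (Only the
values on the closed unit disc matter below.) -/
def InA (f : ℂ → ℂ) : Prop := ContinuousOn f (closedBall 0 1) ∧ DifferentiableOn ℂ f (ball 0 1)

/-- The supremum norm over the closed unit disc. -/
noncomputable def nrm (f : ℂ → ℂ) : ℝ := ⨆ z : closedBall (0 : ℂ) 1, ‖f z‖

/-- `B` is a finite Blaschke product of degree `d` on the closed unit disc. -/
def IsFiniteBlaschke (B : ℂ → ℂ) (d : ℕ) : Prop :=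
  ∃ (θ : ℝ) (a : Fin d → ℂ), (∀ j, ‖a j‖ < 1) ∧ ∀ z ∈ closedBall (0 : ℂ) 1,
    B z = Complex.exp (θ * Complex.I) * ∏ j, (z - a j) / (1 - (starRingEnd ℂ) (a j) * z)

/-- `B` is elliptic: its iterates converge locally uniformly in the open unit disc to a point of
the open unit disc. -/
def IsElliptic (B : ℂ → ℂ) : Prop :=
  ∃ z₀ ∈ ball (0 : ℂ) 1,
    TendstoLocallyUniformlyOn (fun n : ℕ => B^[n]) (fun _ => z₀) atTop (ball 0 1)

/-- The weighted composition operator `(Tf)(z) = w(z) f(B(z))`. -/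
def T (B w f : ℂ → ℂ) : ℂ → ℂ := fun z => w z * f (B z)

/-- `l` belongs to the upper semi-Fredholm spectrum of `T` on the disc algebra: there is a sequence
of unit vectors `x n` with `T (x n) - l (x n) → 0` in norm which has no norm-convergent
subsequence. -/
def InSigmaUsf (B w : ℂ → ℂ) (l : ℂ) : Prop :=
  ∃ x : ℕ → ℂ → ℂ, (∀ n, InA (x n) ∧ nrm (x n) = 1) ∧
    Tendsto (fun n => nrm (fun z => T B w (x n) z - l * x n z)) atTop (𝓝 0) ∧
    ¬ ∃ φ : ℕ → ℕ, StrictMono φ ∧ ∃ g : ℂ → ℂ, InA g ∧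
      Tendsto (fun n => nrm (fun z => x (φ n) z - g z)) atTop (𝓝 0)

/-- The set `Λ(T)` of the radii `r ≥ 0` such that the whole circle `|l| = r` is contained in the
upper semi-Fredholm spectrum of `T`. -/
def Lam (B w : ℂ → ℂ) : Set ℝ := {r | 0 ≤ r ∧ ∀ l : ℂ, ‖l‖ = r → InSigmaUsf B w l}

/-- **Negative answer to Q1.** `B(z) = z²` is an elliptic finite Blaschke product of degree `2`, and
there is `w` in the disc algebra such that `Λ(T)` has the accumulation point `1`. -/
theorem result :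
    IsFiniteBlaschke (fun z => z ^ 2) 2 ∧ IsElliptic (fun z => z ^ 2) ∧
      ∃ w : ℂ → ℂ, InA w ∧ AccPt (1 : ℝ) (𝓟 (Lam (fun z => z ^ 2) w)) := by
  refine ⟨⟨0, fun _ => 0, fun _ => by simp, fun z _ => by simp⟩, ⟨0, by simp, ?_⟩,
    Pool.Agent.R256.Usf.ww, Pool.Agent.R256.Usf.ww_inA, ?_⟩
  · have hit : ∀ n : ℕ, ∀ z : ℂ, (fun z : ℂ => z ^ 2)^[n] z = z ^ (2 ^ n) := by
      intro n
      induction n with
      | zero => intro z; simp
      | succ n ih =>
        intro z
        rw [Function.iterate_succ_apply', ih, ← pow_mul, pow_succ]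
    rw [Metric.tendstoLocallyUniformlyOn_iff]
    intro ε hε x hx
    have hx1 : ‖x‖ < 1 := mem_ball_zero_iff.mp hx
    set ρ : ℝ := (1 + ‖x‖) / 2 with hρ
    have hρ0 : 0 ≤ ρ := by rw [hρ]; positivity
    have hρ1 : ρ < 1 := by rw [hρ]; linarith
    refine ⟨ball 0 ρ, mem_nhdsWithin_of_mem_nhds (isOpen_ball.mem_nhds
      (mem_ball_zero_iff.mpr (by rw [hρ]; linarith))), ?_⟩
    have h1 : Tendsto (fun n : ℕ => ρ ^ (2 ^ n)) atTop (𝓝 0) :=
      (tendsto_pow_atTop_nhds_zero_of_lt_one hρ0 hρ1).comp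
        (tendsto_pow_atTop_atTop_of_one_lt (by norm_num))
    filter_upwards [h1.eventually (gt_mem_nhds hε)] with n hn y hy
    rw [hit, dist_zero_left, norm_pow]
    exact lt_of_le_of_lt (pow_le_pow_left₀ (norm_nonneg _) (mem_ball_zero_iff.mp hy).le _) hn
  · rw [accPt_iff_nhds]
    intro U hU
    obtain ⟨ε, hε, hεU⟩ := Metric.mem_nhds_iff.mp hU
    obtain ⟨r, hr1, hr2, hr3⟩ := Pool.Agent.R256.Usf.main ε hε
    refine ⟨r, ⟨hεU ?_, by linarith, hr3⟩, hr1.ne'⟩
    rw [mem_ball, Real.dist_eq, abs_of_pos (by linarith)]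
    linarith

end Pool.Agent.Results.MP_af3eb4_an.AccumulatingCircles
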